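import Pool.Agent.H69.Ag2

namespace Pool.Agent.Results.MP_eff972_al.NonPoly
open Pool.Agent.H69.Ag

/-- A finitely generated group whose automorphic growth, for every finite generating set, is
`∼ n² log n`, is `≼ n³`, and is `∼ n^k` for no `k`. -/
theorem result : ∃ (G : Type) (_ : Group G),
    (∃ S : Finset G, Subgroup.closure (S : Set G) = ⊤) ∧
    ∀ S : Finset G, Subgroup.closure (S : Set G) = ⊤ →
      Sim (alpha S) (fun n => n ^ 2 * Nat.log 2 n) ∧ Dom (alpha S) (fun n => n ^ 3) ∧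
        ∀ k : ℕ, ¬ Sim (alpha S) (fun n => n ^ k) :=
  ⟨Hs, inferInstance, ⟨T, T_gen⟩, main⟩

end Pool.Agent.Results.MP_eff972_al.NonPoly
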